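import Pool.Agent.P.MP_d10cfe_mp.Main

set_option autoImplicit false

open Pool.Agent.P.MP_d10cfe_mp

/-- One nucleus with charge density `q` supported in the unit ball, plane `y 0 = a`. -/
theorem Pool.Agent.Results.MP_d10cfe_mp.NotMonotone.result (γ : ℝ) (hγ : 0 < γ) :
    ∃ q : EuclideanSpace ℝ (Fin 3) → ℝ, AdmissibleDensity q ∧ (∀ y, 1 < ‖y‖ → q y = 0) ∧
      ∃ lam' lam : ℝ, 0 < lam' ∧ lam' < lam ∧ lam ≤ ∫ y, q y ∧
        ∃ ρ' ρ : EuclideanSpace ℝ (Fin 3) → ℝ,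
          (∀ σ, IsTFDensity γ (coulombPot q) lam' σ ↔ σ = ρ') ∧
          (∀ σ, IsTFDensity γ (coulombPot q) lam σ ↔ σ = ρ) ∧
          ∃ a t : ℝ, 1 < a ∧ t < a ∧
            ρ (EuclideanSpace.single 0 t) - ρ (EuclideanSpace.single 0 (2 * a - t)) <
              ρ' (EuclideanSpace.single 0 t) - ρ' (EuclideanSpace.single 0 (2 * a - t)) :=
  Pool.Agent.P.MP_d10cfe_mp.main γ hγ
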