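import Pool.Agent.P.MP_d10cfe_mp.PtD

set_option autoImplicit false

open Pool.Agent.P.MP_d10cfe_mp

/-- One point nucleus of charge `z` at `R`, plane `⟪n, y⟫ = d`, half-space `⟪n, y⟫ < d`. -/
theorem Pool.Agent.Results.MP_d10cfe_mp.PointNucleus.result (γ z d : ℝ)
    (R n : EuclideanSpace ℝ (Fin 3)) (hγ : 0 < γ) (hz : 0 < z) (hn : ‖n‖ = 1)
    (hR : inner ℝ n R < d) :
    ∃ lam' : ℝ, 0 < lam' ∧ lam' < z ∧ ∃ ρ' ρ : EuclideanSpace ℝ (Fin 3) → ℝ,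
      (∀ σ, IsTFDensity γ (fun y => z / ‖y - R‖) lam' σ ↔ σ = ρ') ∧
      (∀ σ, IsTFDensity γ (fun y => z / ‖y - R‖) z σ ↔ σ = ρ) ∧
      ∃ x : EuclideanSpace ℝ (Fin 3), x ≠ R ∧ inner ℝ n x < d ∧
        ρ x - ρ (x + (2 * (d - inner ℝ n x)) • n) <
          ρ' x - ρ' (x + (2 * (d - inner ℝ n x)) • n) :=
  Pool.Agent.P.MP_d10cfe_mp.Pt.point γ z d R n hγ hz hn hR
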